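import Pool.Agent.R884.Circle.Cert

/-!
The unit circle meets `C × C` (`C` the middle-third Cantor set) in infinitely many points.

State: a square with corner `(p,q)` and side `h = 3 ^ (-n)`, where `p, q` are left endpoints of
intervals of the `n`-th step; `t = (1 - p ^ 2 - q ^ 2) / (2 h)`.  The child `(a,b)` has
`t' = 3 t - 2 (a p + b q) - (2/3) h (a + b)`.
-/

namespace Pool.Agent.R884.Circle

open Set

/-- points of `C × C` scaled to the square with corner `(p,q)` and side `h` -/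
def KK (p q h : ℝ) : Set (ℝ × ℝ) :=
  {z | (z.1 - p) / h ∈ cantorSet ∧ (z.2 - q) / h ∈ cantorSet}

/-- those on the unit circle -/
def Pts (p q h : ℝ) : Set (ℝ × ℝ) := {z | z ∈ KK p q h ∧ z.1 ^ 2 + z.2 ^ 2 = 1}

/-- the residual -/
noncomputable def tval (p q h : ℝ) : ℝ := (1 - p ^ 2 - q ^ 2) / (2 * h)

/-- `3 ^ 29` -/
noncomputable def U : ℝ := 3 ^ 29

lemma U_pos : 0 < U := by unfold U; positivity

/-- first coordinate of the child -/
noncomputable def cp (d : ℕ) (p h : ℝ) : ℝ := p + 2 * ((d % 2 : ℕ) : ℝ) * (h / 3)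
/-- second coordinate of the child -/
noncomputable def cq (d : ℕ) (q h : ℝ) : ℝ := q + 2 * ((d / 2 : ℕ) : ℝ) * (h / 3)

lemma cantor_scale {x h p : ℝ} (hh : 0 < h) {a : ℕ} (ha : a < 2)
    (hx : (x - (p + 2 * (a : ℝ) * (h / 3))) / (h / 3) ∈ cantorSet) : (x - p) / h ∈ cantorSet := by
  rw [cantorSet_eq_union_halves]
  interval_cases a
  · left
    refine ⟨_, hx, ?_⟩
    have := hh.ne'
    simp only [Nat.cast_zero]
    field_simp
    ring
  · right
    refine ⟨_, hx, ?_⟩
    have := hh.ne'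
    simp only [Nat.cast_one]
    field_simp
    ring

lemma KK_child {p q h : ℝ} (hh : 0 < h) {d : ℕ} (hd : d < 4) :
    KK (cp d p h) (cq d q h) (h / 3) ⊆ KK p q h := by
  rintro z ⟨h1, h2⟩
  exact ⟨cantor_scale hh (Nat.mod_lt _ (by norm_num)) h1, cantor_scale hh (by omega) h2⟩

lemma Pts_child {p q h : ℝ} (hh : 0 < h) {d : ℕ} (hd : d < 4) :
    Pts (cp d p h) (cq d q h) (h / 3) ⊆ Pts p q h :=
  fun _ hz => ⟨KK_child hh hd hz.1, hz.2⟩

lemma cantor_sep {x h p : ℝ} (hh : 0 < h) {a b : ℕ} (hab : a < b)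
    (ha : (x - (p + 2 * (a : ℝ) * (h / 3))) / (h / 3) ∈ cantorSet)
    (hb : (x - (p + 2 * (b : ℝ) * (h / 3))) / (h / 3) ∈ cantorSet) : False := by
  have h1 := (cantorSet_subset_unitInterval ha).2
  have h2 := (cantorSet_subset_unitInterval hb).1
  rw [div_le_iff₀ (by positivity)] at h1
  rw [le_div_iff₀ (by positivity)] at h2
  have h3 : (a : ℝ) + 1 ≤ b := by exact_mod_cast hab
  nlinarith

lemma KK_disj {p q h : ℝ} (hh : 0 < h) {d e : ℕ} (hd : d < 4) (he : e < 4) (hne : d ≠ e) :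
    Disjoint (KK (cp d p h) (cq d q h) (h / 3)) (KK (cp e p h) (cq e q h) (h / 3)) := by
  rw [Set.disjoint_left]
  rintro z ⟨h1, h2⟩ ⟨h3, h4⟩
  rcases lt_trichotomy (d % 2) (e % 2) with h | h | h
  · exact cantor_sep hh h h1 h3
  · rcases lt_trichotomy (d / 2) (e / 2) with h' | h' | h'
    · exact cantor_sep hh h' h2 h4
    · omega
    · exact cantor_sep hh h' h4 h2
  · exact cantor_sep hh h h3 h1

lemma tval_child {p q h : ℝ} (hh : 0 < h) {d : ℕ} (hd : d < 4) :
    tval (cp d p h) (cq d q h) (h / 3) =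
      3 * tval p q h - 2 * (((d % 2 : ℕ) : ℝ) * p + ((d / 2 : ℕ) : ℝ) * q) -
        (2 / 3) * h * (((d % 2 : ℕ) : ℝ) + ((d / 2 : ℕ) : ℝ)) := by
  have := hh.ne'
  unfold tval cp cq
  interval_cases d <;> norm_num <;> field_simp <;> ring

/-- the square lies in the base square -/
def Near (p q h : ℝ) : Prop :=
  0 < h ∧ (Ph : ℝ) ≤ p * U ∧ (p + h) * U ≤ Ph + 3 ∧ (Qh : ℝ) ≤ q * U ∧ (q + h) * U ≤ Qh + 3

lemma Near_child {p q h : ℝ} (hn : Near p q h) {d : ℕ} (hd : d < 4) :
    Near (cp d p h) (cq d q h) (h / 3) := by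
  obtain ⟨h0, h1, h2, h3, h4⟩ := hn
  have hU := U_pos
  have hhU : 0 < h * U := by positivity
  unfold cp cq
  refine ⟨by positivity, ?_, ?_, ?_, ?_⟩ <;> interval_cases d <;> norm_num <;> nlinarith

lemma step_sound {p q h : ℝ} (hn : Near p q h) {d : ℕ} (hd : d < 4) {I : ℤ × ℤ}
    (hL : (I.1 : ℝ) ≤ tval p q h * U) (hR : tval p q h * U ≤ I.2) :
    ((stp d I).1 : ℝ) ≤ tval (cp d p h) (cq d q h) (h / 3) * U ∧
      tval (cp d p h) (cq d q h) (h / 3) * U ≤ ((stp d I).2 : ℝ) := by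
  obtain ⟨h0, h1, h2, h3, h4⟩ := hn
  have hU := U_pos
  have hhU : 0 < h * U := by positivity
  rw [tval_child h0 hd]
  have e1 : (p + h) * U = p * U + h * U := by ring
  have e2 : (q + h) * U = q * U + h * U := by ring
  rw [e1] at h2
  rw [e2] at h4
  have e3 : (3 * tval p q h - 2 * (((d % 2 : ℕ) : ℝ) * p + ((d / 2 : ℕ) : ℝ) * q) -
        (2 / 3) * h * (((d % 2 : ℕ) : ℝ) + ((d / 2 : ℕ) : ℝ))) * U =
      3 * (tval p q h * U) - 2 * (((d % 2 : ℕ) : ℝ) * (p * U) + ((d / 2 : ℕ) : ℝ) * (q * U)) -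
        (2 / 3) * (h * U) * (((d % 2 : ℕ) : ℝ) + ((d / 2 : ℕ) : ℝ)) := by ring
  rw [e3]
  unfold stp
  generalize tval p q h * U = T at *
  generalize p * U = P at *
  generalize q * U = Q at *
  generalize h * U = H at *
  have hd' : d = 0 ∨ d = 1 ∨ d = 2 ∨ d = 3 := by omega
  rcases hd' with rfl | rfl | rfl | rfl <;> norm_num <;> constructor <;> linarith

lemma run_sound (w : List ℕ) : ∀ (p q h : ℝ) (I : ℤ × ℤ), (∀ d ∈ w, d < 4) → Near p q h →
    (I.1 : ℝ) ≤ tval p q h * U → tval p q h * U ≤ I.2 →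
    ∃ p' q' h' : ℝ, Near p' q' h' ∧ Pts p' q' h' ⊆ Pts p q h ∧
      ((run w I).1 : ℝ) ≤ tval p' q' h' * U ∧ tval p' q' h' * U ≤ ((run w I).2 : ℝ) := by
  induction w with
  | nil =>
    intro p q h I _ hn hL hR
    exact ⟨p, q, h, hn, Subset.rfl, hL, hR⟩
  | cons d w ih =>
    intro p q h I hw hn hL hR
    have hd : d < 4 := hw d (by simp)
    obtain ⟨s1, s2⟩ := step_sound hn hd hL hR
    obtain ⟨p', q', h', hn', hP, r1, r2⟩ := ih _ _ _ (stp d I)
      (fun e he => hw e (List.mem_cons_of_mem _ he)) (Near_child hn hd) s1 s2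
    exact ⟨p', q', h', hn', hP.trans (Pts_child hn.1 hd), r1, r2⟩

/-- the survival range -/
def Mid (x : ℝ) : Prop := 13726075472 ≤ x ∧ x ≤ 96922069088746

lemma survive {p q h : ℝ} (hn : Near p q h) (ht : Mid (tval p q h * U)) :
    ∃ d < 4, Mid (tval (cp d p h) (cq d q h) (h / 3) * U) := by
  obtain ⟨h1, h2⟩ := ht
  have key : ∀ d < 4, ∀ L R : ℤ, (L : ℝ) ≤ tval p q h * U → tval p q h * U ≤ R →
      13726075472 ≤ (stp d (L, R)).1 → (stp d (L, R)).2 ≤ 96922069088746 →
      Mid (tval (cp d p h) (cq d q h) (h / 3) * U) := by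
    intro d hd L R hL hR a1 a2
    obtain ⟨s1, s2⟩ := step_sound (I := (L, R)) hn hd hL hR
    have a1' : ((13726075472 : ℤ) : ℝ) ≤ ((stp d (L, R)).1 : ℝ) := by exact_mod_cast a1
    have a2' : ((stp d (L, R)).2 : ℝ) ≤ ((96922069088746 : ℤ) : ℝ) := by exact_mod_cast a2
    push_cast at a1' a2'
    exact ⟨a1'.trans s1, s2.trans a2'⟩
  rcases le_total (tval p q h * U) 31500000000000 with c1 | c1
  · exact ⟨0, by norm_num, key 0 (by norm_num) 13726075472 31500000000000
      (by push_cast; exact h1) (by push_cast; exact c1) (by decide +kernel) (by decide +kernel)⟩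
  rcases le_total (tval p q h * U) 48000000000000 with c2 | c2
  · exact ⟨1, by norm_num, key 1 (by norm_num) 31500000000000 48000000000000
      (by push_cast; exact c1) (by push_cast; exact c2) (by decide +kernel) (by decide +kernel)⟩
  rcases le_total (tval p q h * U) 65400000000000 with c3 | c3
  · exact ⟨2, by norm_num, key 2 (by norm_num) 48000000000000 65400000000000
      (by push_cast; exact c2) (by push_cast; exact c3) (by decide +kernel) (by decide +kernel)⟩
  · exact ⟨3, by norm_num, key 3 (by norm_num) 65400000000000 96922069088746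
      (by push_cast; exact c3) (by push_cast; exact h2) (by decide +kernel) (by decide +kernel)⟩

lemma survive_iter (m : ℕ) : ∀ (p q h : ℝ), Near p q h → Mid (tval p q h * U) →
    ∃ p' q' : ℝ, Near p' q' (h / 3 ^ m) ∧ KK p' q' (h / 3 ^ m) ⊆ KK p q h ∧
      Mid (tval p' q' (h / 3 ^ m) * U) := by
  induction m with
  | zero =>
    intro p q h hn ht
    exact ⟨p, q, by simpa using hn, by simp, by simpa using ht⟩
  | succ m ih =>
    intro p q h hn ht
    obtain ⟨d, hd, ht'⟩ := survive hn ht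
    obtain ⟨p', q', h1, h2, h3⟩ := ih _ _ _ (Near_child hn hd) ht'
    have e : h / 3 / 3 ^ m = h / 3 ^ (m + 1) := by rw [pow_succ]; field_simp
    rw [e] at h1 h2 h3
    exact ⟨p', q', h1, h2.trans (KK_child hn.1 hd), h3⟩

lemma KK_compact {p q h : ℝ} (hh : 0 < h) : IsCompact (KK p q h) := by
  have h1 : KK p q h = (fun z : ℝ × ℝ => (p + h * z.1, q + h * z.2)) '' (cantorSet ×ˢ cantorSet) := by
    ext z
    constructor
    · rintro ⟨h1, h2⟩
      refine ⟨((z.1 - p) / h, (z.2 - q) / h), ⟨h1, h2⟩, ?_⟩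
      have := hh.ne'
      ext <;> simp only <;> field_simp <;> ring
    · rintro ⟨w, ⟨hw1, hw2⟩, rfl⟩
      have := hh.ne'
      refine ⟨?_, ?_⟩
      · have e : (p + h * w.1 - p) / h = w.1 := by field_simp; ring
        change (p + h * w.1 - p) / h ∈ cantorSet
        rw [e]; exact hw1
      · have e : (q + h * w.2 - q) / h = w.2 := by field_simp; ring
        change (q + h * w.2 - q) / h ∈ cantorSet
        rw [e]; exact hw2
  rw [h1]
  exact (isCompact_cantorSet.prod isCompact_cantorSet).image (by fun_prop)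

lemma corner_mem {p q h : ℝ} : (p, q) ∈ KK p q h := by
  refine ⟨?_, ?_⟩ <;> simp [zero_mem_cantorSet]

lemma Pts_nonempty {p q h : ℝ} (hn : Near p q h) (ht : Mid (tval p q h * U)) :
    (Pts p q h).Nonempty := by
  obtain ⟨z, hz, hmin⟩ := (KK_compact (p := p) (q := q) hn.1).exists_isMinOn
    ⟨(p, q), corner_mem⟩
    (f := fun z : ℝ × ℝ => |1 - z.1 ^ 2 - z.2 ^ 2|) (by fun_prop)
  refine ⟨z, hz, ?_⟩
  have hb : ∀ m : ℕ, |1 - z.1 ^ 2 - z.2 ^ 2| ≤ (2 * h * (96922069088746 / U)) * (1 / 3) ^ m := by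
    intro m
    obtain ⟨p', q', h1, h2, h3⟩ := survive_iter m p q h hn ht
    have h4 := hmin (h2 corner_mem : (p', q') ∈ KK p q h)
    have h5 : |1 - z.1 ^ 2 - z.2 ^ 2| ≤ |1 - p' ^ 2 - q' ^ 2| := h4
    have h6 : 1 - p' ^ 2 - q' ^ 2 = 2 * (h / 3 ^ m) * tval p' q' (h / 3 ^ m) := by
      have := h1.1.ne'
      unfold tval
      rw [mul_div_cancel₀ _ (mul_ne_zero two_ne_zero this)]
    have hU := U_pos
    have h7 : 0 ≤ tval p' q' (h / 3 ^ m) := by
      have : 0 < tval p' q' (h / 3 ^ m) * U := lt_of_lt_of_le (by norm_num) h3.1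
      exact le_of_mul_le_mul_right (by rw [zero_mul]; exact this.le) hU
    have h8 : tval p' q' (h / 3 ^ m) ≤ 96922069088746 / U := by
      rw [le_div_iff₀ hU]; exact h3.2
    rw [h6, abs_of_nonneg (mul_nonneg (mul_nonneg (by norm_num) h1.1.le) h7)] at h5
    refine h5.trans ?_
    have h9 : 0 ≤ 2 * (h / 3 ^ m) := mul_nonneg (by norm_num) h1.1.le
    refine (mul_le_mul_of_nonneg_left h8 h9).trans (le_of_eq ?_)
    rw [one_div, inv_pow]
    field_simp
  have hlim : Filter.Tendsto (fun m : ℕ => (2 * h * (96922069088746 / U)) * (1 / 3 : ℝ) ^ m)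
      Filter.atTop (nhds ((2 * h * (96922069088746 / U)) * 0)) :=
    (tendsto_pow_atTop_nhds_zero_of_lt_one (by norm_num) (by norm_num)).const_mul _
  rw [mul_zero] at hlim
  have h0 := ge_of_tendsto' hlim hb
  have := abs_nonpos_iff.1 h0
  linarith

lemma cover (x : ℝ) (hx : x ≤ Jb) : ∀ (L : List (ℤ × List ℕ)) (l : ℤ), chk l L = true →
    (l : ℝ) ≤ x → L = [] ∨ ∃ l' r w, chkLeaf l' r w = true ∧ (l' : ℝ) ≤ x ∧ x ≤ r := by
  intro L
  induction L with
  | nil => intro l _ _; exact Or.inl rfl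
  | cons a L ih =>
    intro l hc hl
    obtain ⟨r, w⟩ := a
    simp only [chk, Bool.and_eq_true] at hc
    right
    rcases le_or_gt x r with hr | hr
    · exact ⟨l, r, w, hc.1, hl, hr⟩
    · rcases ih r hc.2 hr.le with h1 | h1
      · exfalso
        rw [h1] at hc
        have h2 : Jb ≤ r := by simpa [chk] using hc.2
        have h3 : (Jb : ℝ) ≤ r := by exact_mod_cast h2
        linarith
      · exact h1

lemma count (N : ℕ) : ∀ (p q h : ℝ), Near p q h → (Ja : ℝ) ≤ tval p q h * U →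
    tval p q h * U ≤ Jb → (N : ℕ∞) ≤ (Pts p q h).encard := by
  induction N with
  | zero => intro p q h _ _ _; simp
  | succ N ih =>
    intro p q h hn h1 h2
    obtain ⟨l, r, w, hleaf, hl, hr⟩ : ∃ l' r w, chkLeaf l' r w = true ∧
        (l' : ℝ) ≤ tval p q h * U ∧ tval p q h * U ≤ r := by
      rcases cover _ h2 leaves Ja chk_leaves h1 with h | h
      · exact absurd h (by simp [leaves])
      · exact h
    simp only [chkLeaf, Bool.and_eq_true, Bool.not_eq_true', List.all_eq_true,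
      decide_eq_true_eq] at hleaf
    obtain ⟨⟨hw1, hw2⟩, hw3, hw4⟩ := hleaf
    cases w with
    | nil => simp at hw1
    | cons d w =>
      have hd : d < 4 := hw2 d (by simp)
      obtain ⟨s1, s2⟩ := step_sound (I := (l, r)) hn hd hl hr
      obtain ⟨p', q', h', hn', hP, r1, r2⟩ := run_sound w _ _ _ (stp d (l, r))
        (fun e he => hw2 e (List.mem_cons_of_mem _ he)) (Near_child hn hd) s1 s2
      have hfin := ih p' q' h' hn' ((by exact_mod_cast hw3 : (Ja : ℝ) ≤ _).trans r1)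
        (r2.trans (by exact_mod_cast hw4))
      -- the other child
      obtain ⟨e, he, hne, hmid⟩ : ∃ e < 4, d ≠ e ∧
          Mid (tval (cp e p h) (cq e q h) (h / 3) * U) := by
        have key : ∀ e < 4, 13726075472 ≤ (stp e (Ja, Jb)).1 →
            (stp e (Ja, Jb)).2 ≤ 96922069088746 →
            Mid (tval (cp e p h) (cq e q h) (h / 3) * U) := by
          intro e he a1 a2
          obtain ⟨t1, t2⟩ := step_sound (I := (Ja, Jb)) hn he h1 h2
          have a1' : ((13726075472 : ℤ) : ℝ) ≤ ((stp e (Ja, Jb)).1 : ℝ) := by exact_mod_cast a1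
          have a2' : ((stp e (Ja, Jb)).2 : ℝ) ≤ ((96922069088746 : ℤ) : ℝ) := by
            exact_mod_cast a2
          push_cast at a1' a2'
          exact ⟨a1'.trans t1, t2.trans a2'⟩
        by_cases hd1 : d = 1
        · exact ⟨2, by norm_num, by omega, key 2 (by norm_num) (by decide +kernel)
            (by decide +kernel)⟩
        · exact ⟨1, by norm_num, hd1, key 1 (by norm_num) (by decide +kernel)
            (by decide +kernel)⟩
      have hother := Pts_nonempty (Near_child hn he) hmid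
      have hdisj : Disjoint (Pts p' q' h') (Pts (cp e p h) (cq e q h) (h / 3)) := by
        have h3 := KK_disj (p := p) (q := q) hn.1 hd he hne
        exact h3.mono (fun z hz => (hP hz).1) (fun z hz => hz.1)
      have hsub : Pts p' q' h' ∪ Pts (cp e p h) (cq e q h) (h / 3) ⊆ Pts p q h :=
        union_subset (hP.trans (Pts_child hn.1 hd)) (Pts_child hn.1 he)
      have h3 := encard_le_encard hsub
      rw [encard_union_eq hdisj] at h3
      refine le_trans ?_ h3
      push_cast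
      exact add_le_add hfin (one_le_encard_iff_nonempty.2 hother)

/-- corner of the square with digits `w` in units `3 ^ (-n)` -/
def pos (w : List ℕ) (I : ℤ × ℤ) : ℤ × ℤ :=
  w.foldl (fun J d => (3 * J.1 + 2 * (d % 2 : ℕ), 3 * J.2 + 2 * (d / 2 : ℕ))) I

lemma pos_sub (w : List ℕ) : ∀ (I : ℤ × ℤ) (n : ℕ), (∀ d ∈ w, d < 4) →
    KK ((pos w I).1 / 3 ^ (n + w.length)) ((pos w I).2 / 3 ^ (n + w.length))
      (1 / 3 ^ (n + w.length)) ⊆ KK (I.1 / 3 ^ n) (I.2 / 3 ^ n) (1 / 3 ^ n) := by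
  induction w with
  | nil => intro I n _; simp [pos]
  | cons d w ih =>
    intro I n hw
    have hd : d < 4 := hw d (by simp)
    have h1 := ih (3 * I.1 + 2 * (d % 2 : ℕ), 3 * I.2 + 2 * (d / 2 : ℕ)) (n + 1)
      (fun e he => hw e (List.mem_cons_of_mem _ he))
    have h2 := KK_child (p := I.1 / 3 ^ n) (q := I.2 / 3 ^ n) (h := 1 / 3 ^ n) (by positivity) hd
    have e0 : n + (d :: w).length = n + 1 + w.length := by simp; ring
    rw [e0]
    refine Subset.trans ?_ h2
    have e1 : cp d (I.1 / 3 ^ n) (1 / 3 ^ n) =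
        ((3 * I.1 + 2 * (d % 2 : ℕ) : ℤ) : ℝ) / 3 ^ (n + 1) := by
      unfold cp
      simp only [Int.cast_add, Int.cast_mul, Int.cast_natCast, Int.cast_ofNat]
      rw [pow_succ]; field_simp
    have e2 : cq d (I.2 / 3 ^ n) (1 / 3 ^ n) =
        ((3 * I.2 + 2 * (d / 2 : ℕ) : ℤ) : ℝ) / 3 ^ (n + 1) := by
      unfold cq
      simp only [Int.cast_add, Int.cast_mul, Int.cast_natCast, Int.cast_ofNat]
      rw [pow_succ]; field_simp
    have e3 : (1 / 3 ^ n / 3 : ℝ) = 1 / 3 ^ (n + 1) := by rw [pow_succ]; field_simp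
    rw [e1, e2, e3]
    exact h1

theorem main : {z : ℝ × ℝ | z.1 ∈ cantorSet ∧ z.2 ∈ cantorSet ∧ z.1 ^ 2 + z.2 ^ 2 = 1}.Infinite := by
  have hpos : pos w0 (0, 0) = (15344434209158, 16967497512248) := by decide +kernel
  have hlen : w0.length = 28 := by decide +kernel
  have hw0 : ∀ d ∈ w0, d < 4 := by decide +kernel
  have h1 := pos_sub w0 (0, 0) 0 hw0
  rw [hpos, hlen] at h1
  have hsub : Pts ((15344434209158 : ℤ) / 3 ^ (0 + 28)) ((16967497512248 : ℤ) / 3 ^ (0 + 28))
      (1 / 3 ^ (0 + 28)) ⊆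
      {z : ℝ × ℝ | z.1 ∈ cantorSet ∧ z.2 ∈ cantorSet ∧ z.1 ^ 2 + z.2 ^ 2 = 1} := by
    rintro z ⟨hz1, hz2⟩
    have h3 := h1 hz1
    simp only [KK, mem_ofPred_eq, Int.cast_zero, pow_zero, zero_div, sub_zero, div_one] at h3
    exact ⟨h3.1, h3.2, hz2⟩
  have hnear : Near ((15344434209158 : ℤ) / 3 ^ (0 + 28)) ((16967497512248 : ℤ) / 3 ^ (0 + 28))
      (1 / 3 ^ (0 + 28)) := by
    unfold Near U Ph Qh
    norm_num
  have ht : tval ((15344434209158 : ℤ) / 3 ^ (0 + 28)) ((16967497512248 : ℤ) / 3 ^ (0 + 28))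
      (1 / 3 ^ (0 + 28)) * U = 120514237287159 / 2 := by
    unfold tval U
    norm_num
  intro hfin
  have hfin' := hfin.subset hsub
  have h2 := count (hfin'.toFinset.card + 1) _ _ _ hnear (by rw [ht]; unfold Ja; norm_num)
    (by rw [ht]; unfold Jb; norm_num)
  rw [hfin'.encard_eq_coe_toFinset_card] at h2
  have h3 : hfin'.toFinset.card + 1 ≤ hfin'.toFinset.card := by exact_mod_cast h2
  omega

end Pool.Agent.R884.Circle
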